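import Pool.Agent.Helper93.KS.St2
import Mathlib.NumberTheory.LSeries.PrimesInAP
import Mathlib.NumberTheory.LegendreSymbol.JacobiSymbol

/-!
# Project KS, module SQR: an integer with Jacobi symbol 1 at almost all primes is a square
-/

set_option autoImplicit false

noncomputable section

namespace Pool.Agent.Helper89.KS

open Finset Filter Topology Pool.Agent.Helper93.KS
open Pool.Agent.Helper15.AB (SP StML)
open Pool.Agent.Helper9.TW (gm)
open Pool.Agent.Helper93.KP (gk vk tk rn gn TK qk StRTS)

/-- a squarefree number different from `1` has Jacobi symbol `- 1` at some large prime -/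
private theorem exists_neg (s B : ℕ) (hs : Squarefree s) (hs1 : s ≠ 1) :
    ∃ p : ℕ, p.Prime ∧ B < p ∧ jacobiSym (s : ℤ) p = -1 := by
  by_cases hl : ∃ l : ℕ, l.Prime ∧ l ≠ 2 ∧ l ∣ s
  · obtain ⟨l, hlp, hl2, t, rfl⟩ := hl
    have : Fact l.Prime := ⟨hlp⟩
    have hlt : l.Coprime t := (Nat.squarefree_mul_iff.1 hs).1
    have hodd : Odd l := hlp.odd_of_ne_two hl2
    have ht0 : 0 < t := by
      rcases Nat.eq_zero_or_pos t with h | h
      · subst h
        simp at hs
      · exact h
    have hcop : l.Coprime (8 * t) := by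
      refine Nat.Coprime.mul_right ?_ hlt
      have h2 : l.Coprime 2 := (Nat.coprime_primes hlp Nat.prime_two).2 hl2
      have : (8 : ℕ) = 2 ^ 3 := by norm_num
      rw [this]
      exact Nat.Coprime.pow_right 3 h2
    obtain ⟨x, hx⟩ := FiniteField.exists_nonsquare (F := ZMod l) (by rw [ZMod.ringChar_zmod_n]; exact hl2)
    have hxv : ((x.val : ℕ) : ZMod l) = x := ZMod.natCast_zmod_val x
    have hxcop : (x.val).Coprime l := by
      rw [Nat.coprime_comm, hlp.coprime_iff_not_dvd, ← ZMod.natCast_eq_zero_iff, hxv]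
      rintro rfl
      exact hx ⟨0, by simp⟩
    obtain ⟨b, hb1, hb2⟩ := Nat.chineseRemainder hcop x.val 1
    have hbc : b.Coprime (l * (8 * t)) := by
      refine Nat.Coprime.mul_right ?_ ?_
      · have := hb1.gcd_eq
        unfold Nat.Coprime
        rw [this]
        exact hxcop
      · have := hb2.gcd_eq
        unfold Nat.Coprime
        rw [this]
        exact Nat.gcd_one_left _
    obtain ⟨p, hpB, hp, hpb⟩ := Nat.forall_exists_prime_gt_and_modEq (B + 2) (q := l * (8 * t)) (a := b)
      (Nat.mul_ne_zero hlp.ne_zero (by omega)) hbc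
    have hp1 : p ≡ x.val [MOD l] := (hpb.of_mul_right _).trans hb1
    have hp2 : p ≡ 1 [MOD 8 * t] := (hpb.of_mul_left _).trans hb2
    have hp4 : p % 4 = 1 := by
      have h84 : (8 * t) = 4 * (2 * t) := by ring
      rw [h84] at hp2
      have := hp2.of_mul_right (2 * t)
      exact this
    have hpodd : Odd p := Nat.odd_iff.2 (by omega)
    have hp4t : p % (4 * t) = 1 := by
      have h84 : (8 * t) = 2 * (4 * t) := by ring
      rw [h84] at hp2
      have h3 : p % (4 * t) = 1 % (4 * t) := hp2.of_mul_left 2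
      rw [h3]
      exact Nat.mod_eq_of_lt (by omega)
    refine ⟨p, hp, by omega, ?_⟩
    have e1 : jacobiSym (l : ℤ) p = -1 := by
      rw [jacobiSym.quadratic_reciprocity_one_mod_four' hodd hp4]
      have e2 : jacobiSym (p : ℤ) l = jacobiSym ((x.val : ℕ) : ℤ) l := by
        apply jacobiSym.mod_left'
        have := (Int.natCast_modEq_iff.2 hp1)
        exact this
      rw [e2, ← jacobiSym.legendreSym.to_jacobiSym, legendreSym.eq_neg_one_iff', hxv]
      exact hx
    have e3 : jacobiSym (t : ℤ) p = 1 := by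
      rw [jacobiSym.mod_right' t hpodd, hp4t, jacobiSym.one_right]
    rw [Nat.cast_mul, jacobiSym.mul_left, e1, e3]
    norm_num
  · push Not at hl
    have h2 : s = 2 := by
      obtain ⟨r, hr, hrs⟩ := Nat.exists_prime_and_dvd hs1
      have hr2 : r = 2 := by
        by_contra hne
        exact hl r hr hne hrs
      subst hr2
      obtain ⟨u, rfl⟩ := hrs
      by_cases hu : u = 1
      · rw [hu]
      · exfalso
        obtain ⟨r, hr, hru⟩ := Nat.exists_prime_and_dvd hu
        have hr2 : r = 2 := by
          by_contra hne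
          exact hl r hr hne (hru.mul_left 2)
        subst hr2
        have hc := (Nat.squarefree_mul_iff.1 hs).1
        exact Nat.not_coprime_of_dvd_of_dvd (by norm_num) (dvd_refl 2) hru hc
    subst h2
    obtain ⟨p, hpB, hp, hpb⟩ := Nat.forall_exists_prime_gt_and_modEq (B + 2) (q := 8) (a := 5)
      (by norm_num) (by norm_num)
    have h8 : p % 8 = 5 := hpb
    have hpodd : Odd p := Nat.odd_iff.2 (by omega)
    refine ⟨p, hp, by omega, ?_⟩
    rw [Nat.cast_ofNat, jacobiSym.at_two hpodd, ZMod.χ₈_nat_eq_if_mod_eight, h8]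
    have : ¬ p % 2 = 0 := by omega
    simp [this]

/-- SQR: an integer with Jacobi symbol `1` at almost all primes is a square -/
theorem hSQR : StSQR := by
  intro A hA h
  obtain ⟨s, w, hs0, hw0, hws, hsq⟩ := Nat.sq_mul_squarefree_of_pos hA
  by_contra hns
  have hs1 : s ≠ 1 := by
    rintro rfl
    exact hns ⟨w, by rw [← hws]; ring⟩
  obtain ⟨p, hp, hpA, hJ⟩ := exists_neg s (A + 7) hsq hs1
  have hpd : ¬ p ∣ A := fun hd => by
    have := Nat.le_of_dvd hA hd
    omega
  have h1 := h p hp (by omega) hpd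
  have hpw : ¬ p ∣ w := fun hd => hpd (by
    rw [← hws]
    exact (hd.trans (dvd_pow_self w two_ne_zero)).mul_right s)
  have hcop : (w : ℤ).gcd p = 1 := by
    rw [Int.gcd_natCast_natCast]
    exact Nat.coprime_comm.1 ((hp.coprime_iff_not_dvd).2 hpw)
  rw [← hws, Nat.cast_mul, Nat.cast_pow, jacobiSym.mul_left, jacobiSym.sq_one' hcop, one_mul, hJ] at h1
  norm_num at h1

end Pool.Agent.Helper89.KS
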